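import Pool.Agent.Lib.H65Q.Growth
import Pool.Agent.Lib.H99E.ExplicitGen

/-! # H65Q, file Inst: the two growth rates which start the induction (MP_73a90e_al) -/

set_option autoImplicit false

namespace H65Q

open Real

theorem natSqrt_le (i : ℕ) : ((Nat.sqrt i : ℕ) : ℝ) ≤ √(i : ℝ) := by
  apply Real.le_sqrt_of_sq_le
  have h1 : Nat.sqrt i ^ 2 ≤ i := Nat.sqrt_le' i
  exact_mod_cast h1

/-- The level 3: `2 ^ i` bits, at most `2 ^ i * 2 ^ (10 * √i + 7)`. -/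
theorem gr_three {P : ℕ → ℕ → Prop} (hmono : ∀ L L' m, L' ≤ L → P L m → P L' m)
    (h : ∀ i : ℕ, ∃ m : ℕ, m ≤ 2 ^ i * 2 ^ (10 * Nat.sqrt i + 7) ∧ P (2 ^ i) m) : Gr 1 P := by
  refine of_pow (B := 2) le_rfl (A := 128) (by norm_num) (by norm_num) hmono fun i => ?_
  obtain ⟨m, hm, hP⟩ := h i
  refine ⟨m, ?_, hP⟩
  have h1 : (m : ℝ) ≤ 2 ^ i * 2 ^ (10 * Nat.sqrt i + 7) := by exact_mod_cast hm
  have h2 : (2 : ℝ) ^ (10 * Nat.sqrt i + 7) ≤ 128 * 2 ^ (128 * √(i : ℝ)) := by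
    have h3 : (2 : ℝ) ^ (10 * Nat.sqrt i + 7) = 128 * 2 ^ ((10 * Nat.sqrt i : ℕ) : ℝ) := by
      rw [pow_add, Real.rpow_natCast]
      norm_num
      ring
    rw [h3]
    refine mul_le_mul_of_nonneg_left (two_rpow_le ?_) (by norm_num)
    push_cast
    have := natSqrt_le i
    have h0 : (0 : ℝ) ≤ Nat.sqrt i := Nat.cast_nonneg _
    nlinarith
  rw [Real.rpow_one]
  push_cast
  calc (m : ℝ) ≤ 2 ^ i * 2 ^ (10 * Nat.sqrt i + 7) := h1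
    _ ≤ 2 ^ i * (128 * 2 ^ (128 * √(i : ℝ))) := mul_le_mul_of_nonneg_left h2 (by positivity)
    _ = 128 * 2 ^ i * 2 ^ (128 * √(i : ℝ)) := by ring

/-- The joins of `M` words: `4 ^ i` bits, at most `(3 * cc i) ^ M`. -/
theorem gr_join {P : ℕ → ℕ → Prop} (hmono : ∀ L L' m, L' ≤ L → P L m → P L' m) (M : ℕ)
    (h : ∀ i : ℕ, ∃ m : ℕ, m ≤ (3 * H99E.cc i) ^ M ∧ P (4 ^ i) m) : Gr ((M : ℝ) / 2) P := by
  obtain ⟨A, hA⟩ : ∃ A : ℝ, A = (384 : ℝ) ^ M + 8 * M := ⟨_, rfl⟩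
  have hA0 : 0 ≤ A := by
    rw [hA]
    positivity
  refine of_pow (B := 4) (by norm_num) (A := A) (by positivity) hA0 hmono fun i => ?_
  obtain ⟨m, hm, hP⟩ := h i
  refine ⟨m, ?_, hP⟩
  have h1 : (m : ℝ) ≤ (3 * (2 ^ i * 2 ^ (8 * Nat.sqrt i + 7))) ^ M := by
    have h2 : m ≤ (3 * (2 ^ i * 2 ^ (8 * Nat.sqrt i + 7))) ^ M :=
      hm.trans (Nat.pow_le_pow_left (Nat.mul_le_mul_left 3 (H99E.cc_le i)) M)
    exact_mod_cast h2
  have h2 : ((3 : ℝ) * (2 ^ i * 2 ^ (8 * Nat.sqrt i + 7))) ^ M = 384 ^ M * (2 ^ i) ^ M * (2 ^ (8 * Nat.sqrt i)) ^ M := by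
    rw [← mul_pow, ← mul_pow, pow_add]
    congr 1
    norm_num
    ring
  have h3 : (((4 : ℕ) : ℝ) ^ i) ^ ((M : ℝ) / 2) = ((2 : ℝ) ^ i) ^ M := by
    have h4 : (((4 : ℕ) : ℝ) ^ i) = ((2 : ℝ) ^ i) ^ (2 : ℝ) := by
      rw [Real.rpow_two, ← pow_mul, mul_comm i 2, pow_mul]
      norm_num
    rw [h4, ← Real.rpow_mul (by positivity), mul_div_cancel₀ _ (by norm_num : (2 : ℝ) ≠ 0), Real.rpow_natCast]
  have h4 : ((2 : ℝ) ^ (8 * Nat.sqrt i)) ^ M ≤ 2 ^ (A * √(i : ℝ)) := by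
    rw [← pow_mul, ← Real.rpow_natCast]
    refine two_rpow_le ?_
    push_cast
    have h5 := natSqrt_le i
    have h6 : (0 : ℝ) ≤ √(i : ℝ) := Real.sqrt_nonneg _
    calc 8 * (Nat.sqrt i : ℝ) * M = 8 * M * (Nat.sqrt i : ℝ) := by ring
      _ ≤ 8 * M * √(i : ℝ) := mul_le_mul_of_nonneg_left h5 (by positivity)
      _ ≤ A * √(i : ℝ) := by
        refine mul_le_mul_of_nonneg_right ?_ h6
        rw [hA]
        have : (0 : ℝ) ≤ 384 ^ M := by positivity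
        linarith
  rw [h3]
  calc (m : ℝ) ≤ 384 ^ M * (2 ^ i) ^ M * (2 ^ (8 * Nat.sqrt i)) ^ M := by rw [← h2]; exact h1
    _ ≤ A * (2 ^ i) ^ M * 2 ^ (A * √(i : ℝ)) := by
      have h7 : (384 : ℝ) ^ M ≤ A := by
        rw [hA]
        have : (0 : ℝ) ≤ 8 * M := by positivity
        linarith
      gcongr

end H65Q
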