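import Pool.Agent.Lib.H65Q.Inst
import Pool.Agent.Lib.H60L.P4
import Pool.Agent.Lib.H99M.Iter
import Pool.Agent.Lib.H38S.Main

/-! # H65Q, file Asm: the induction over the level (MP_73a90e_al)

`Q N L m`: in systems of level `N`, `m` words with values in `{0, 1} ^ N` generate the word of `L` bits. -/

set_option autoImplicit false

namespace H65Q

open Pool.H87G H87L H38S H87M

/-- `m` words with values in `{0, 1} ^ N` generate the word of `L` bits in systems of level `N`. -/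
def Q (N L m : ℕ) : Prop :=
  ∃ (I : Type) (_ : Fintype I), Fintype.card I = m ∧ H60L.GeZ N (Fin N → Bool) (Fin L → Bool) I

theorem Q_mono {N : ℕ} (L L' m : ℕ) (hL : L' ≤ L) (h : Q N L m) : Q N L' m := by
  obtain ⟨I, hI, hc, h⟩ := h
  obtain ⟨e, he⟩ := H38S.inj_of_le (X := Fin L → Bool) (Y := Fin L' → Bool) (by
    simp only [Fintype.card_fun, Fintype.card_fin, Fintype.card_bool]
    exact Nat.pow_le_pow_right (by norm_num) hL)
  exact ⟨I, hI, hc, H60L.geZ_map he h⟩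

/-- change of the alphabet of the list -/
theorem geZ_code {N : ℕ} {Z Z' X I : Type} {e : Z → Z'} (he : Function.Injective e) (h : H60L.GeZ N Z X I) :
    H60L.GeZ N Z' X I := by
  obtain ⟨g, h⟩ := h
  exact ⟨fun i w => e (g i w), fun Ω K hK x hx => h Ω K hK x fun i => of_inj hK he (hx i)⟩

theorem Q_three (i : ℕ) : ∃ m : ℕ, m ≤ 2 ^ i * 2 ^ (10 * Nat.sqrt i + 7) ∧ Q 3 (2 ^ i) m := by
  obtain ⟨I, hI, hc, h⟩ := geN_TW i
  refine ⟨Fintype.card I, hc.trans (TW_le i), I, hI, rfl, ?_⟩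
  obtain ⟨e, he⟩ := H38S.inj_of_le (X := Fin (2 ^ 2 ^ i)) (Y := Fin (2 ^ i) → Bool) (by simp)
  obtain ⟨e', he'⟩ := H38S.inj_of_le (X := Fin 3 → Bool) (Y := Fin 6) (by simp)
  have h1 : H60L.GeZ 3 (Fin 6) (Fin (2 ^ 2 ^ i)) I := h
  exact geZ_code he' (H60L.geZ_map he h1)

/-- the joins -/
def Jn (N L c : ℕ) : Prop :=
  ∃ (I : Type) (_ : Fintype I), Fintype.card I = c ∧ CrM N (Fin L → Bool) (fun _ => Set.univ) I

theorem Jn_mono {N : ℕ} (L L' m : ℕ) (hL : L' ≤ L) (h : Jn N L m) : Jn N L' m := by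
  obtain ⟨I, hI, hc, h⟩ := h
  obtain ⟨e, he⟩ := H38S.inj_of_le (X := Fin L → Bool) (Y := Fin L' → Bool) (by
    simp only [Fintype.card_fun, Fintype.card_fin, Fintype.card_bool]
    exact Nat.pow_le_pow_right (by norm_num) hL)
  exact ⟨I, hI, hc, H60L.crM_map he h⟩

theorem gr_Jn {N : ℕ} (hN : 2 ≤ N) : Gr ((N : ℝ) / 2) (Jn N) := by
  refine gr_join Jn_mono N fun i => ?_
  obtain ⟨I, hI, hc, h⟩ := H99M.crM_cc hN i (Fin (4 ^ i)) (by simp)
  exact ⟨(3 * H99E.cc i) ^ N, le_rfl, I, hI, hc, h⟩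

/-- The recursion. -/
theorem Q_rec {N : ℕ} (q l a m c : ℕ) (h0 : Q N (N * q) a) (hJ : Q (N + 1) (N * l) m) (hC : Jn N (N * q * l) c) :
    Q (N + 1) (N * q * l)
      (a * m + Fintype.card ((Fin (N * q) → Bool) → Fin N → Fin (N * q) → Bool) * c) := by
  classical
  obtain ⟨I0, _, ha, h0⟩ := h0
  obtain ⟨J, _, hm, hJ⟩ := hJ
  obtain ⟨IC, _, hc, hC⟩ := hC
  obtain ⟨e1, he1⟩ := H60L.exists_inj (a := N) (b := l) (c := N * l) le_rfl
  obtain ⟨e2, he2⟩ := H60L.exists_inj (a := N * q) (b := l) (c := N * q * l) le_rfl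
  obtain ⟨e3, he3⟩ := H60L.exists_inj' (a := N * q) (b := l) (c := N * q * l) le_rfl
  obtain ⟨e4, he4⟩ := H38S.inj_of_le (X := Fin (N + 1) → Bool) (Y := Fin N → Bool) (by
    simp only [Fintype.card_fun, Fintype.card_fin, Fintype.card_bool]
    exact Nat.pow_le_pow_right (by norm_num) (Nat.le_succ N))
  have h := H60L.ge_step (code := e4) he4 h0 (H60L.geZ_map he1 hJ) (H60L.crM_map he2 hC)
  refine ⟨_, inferInstance, ?_, H60L.geZ_map he3 h⟩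
  rw [Fintype.card_sum, Fintype.card_prod, Fintype.card_prod, ha, hm, hc]

/-- The growth on the level `N`. -/
theorem gr_level {N : ℕ} (hN : 3 ≤ N) : Gr (((N : ℝ) - 1) / 2) (Q N) := by
  induction N, hN using Nat.le_induction with
  | base =>
    have h := gr_three (P := Q 3) Q_mono Q_three
    have e : (((3 : ℕ) : ℝ) - 1) / 2 = 1 := by norm_num
    rw [e]
    exact h
  | succ N hN ih =>
    have hN0 : (3 : ℝ) ≤ N := by exact_mod_cast hN
    have e : (((N + 1 : ℕ) : ℝ) - 1) / 2 = (N : ℝ) / 2 := by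
      push_cast
      ring
    rw [e]
    refine step (β := N) (W := fun q => Fintype.card ((Fin (N * q) → Bool) → Fin N → Fin (N * q) → Bool))
      (by omega) (by linarith) (by linarith) ih (gr_Jn (by omega)) Q_mono ⟨1, Unit, inferInstance, by simp, ?_⟩
      fun q l a m c _ _ h0 hJ hC => Q_rec q l a m c h0 hJ hC
    obtain ⟨e4, he4⟩ := H38S.inj_of_le (X := Fin (N + 1) → Bool) (Y := Fin N → Bool) (by
      simp only [Fintype.card_fun, Fintype.card_fin, Fintype.card_bool]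
      exact Nat.pow_le_pow_right (by norm_num) (Nat.le_succ N))
    exact ⟨fun _ w => e4 w, fun Ω K hK x hx => of_inj hK he4 (hx ())⟩

/-- one more word -/
theorem gr_succ {e : ℝ} {P : ℕ → ℕ → Prop} (he : 0 ≤ e) (h : Gr e P) : Gr e fun L m => ∃ m', m = m' + 1 ∧ P L m' := by
  obtain ⟨K, hK0, hK⟩ := h
  refine ⟨K + 1, by linarith, fun L hL => ?_⟩
  obtain ⟨m, hm, hP⟩ := hK L hL
  refine ⟨m + 1, ?_, m, rfl, hP⟩
  have hL1 : (1 : ℝ) ≤ L := by exact_mod_cast hL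
  have h1 : (1 : ℝ) ≤ (L : ℝ) ^ e := Real.one_le_rpow hL1 he
  have h2 : (2 : ℝ) ^ (K * √(Real.logb 2 L)) ≤ 2 ^ ((K + 1) * √(Real.logb 2 L)) :=
    two_rpow_le (mul_le_mul_of_nonneg_right (by linarith) (Real.sqrt_nonneg _))
  have h3 : (1 : ℝ) ≤ 2 ^ ((K + 1) * √(Real.logb 2 L)) := Real.one_le_rpow (by norm_num) (by positivity)
  have h4 : (1 : ℝ) ≤ (L : ℝ) ^ e * 2 ^ ((K + 1) * √(Real.logb 2 L)) := one_le_mul_of_one_le_of_one_le h1 h3
  push_cast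
  calc (m : ℝ) + 1 ≤ K * (L : ℝ) ^ e * 2 ^ (K * √(Real.logb 2 L)) + 1 := by linarith
    _ ≤ K * (L : ℝ) ^ e * 2 ^ ((K + 1) * √(Real.logb 2 L)) + (L : ℝ) ^ e * 2 ^ ((K + 1) * √(Real.logb 2 L)) := by
      have := mul_le_mul_of_nonneg_left h2 (show 0 ≤ K * (L : ℝ) ^ e by positivity)
      linarith
    _ = (K + 1) * (L : ℝ) ^ e * 2 ^ ((K + 1) * √(Real.logb 2 L)) := by ring

theorem d_le {F : Set (POp Bool)} {N : ℕ} (hN : 1 ≤ N) (hF : Generates F (Lev N)) {n L m : ℕ} (hn : n ≤ 2 ^ L)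
    (h : Q N L m) : d F n ≤ (2 ^ 2 ^ N + 2) * (m + 1) := by
  obtain ⟨I, hI, hc, h⟩ := h
  obtain ⟨e, he⟩ := H38S.inj_of_le (X := Fin L → Bool) (Y := Fin n) (by simpa using hn)
  obtain ⟨e', he'⟩ := H38S.inj_of_le (X := Fin (2 ^ N)) (Y := Fin N → Bool) (by simp)
  have h1 : H60L.GeZ N (Fin (2 ^ N)) (Fin n) I := geZ_code he' (H60L.geZ_map he h)
  have h2 : GeN N n m (2 ^ N) := ⟨I, hI, hc.le, h1⟩
  refine (d_le' hN hF h2).trans ?_
  have h3 : 0 ≤ 2 ^ 2 ^ N + 2 * m := Nat.zero_le _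
  have e1 : (2 ^ 2 ^ N + 2) * (m + 1) = m * 2 ^ 2 ^ N + 2 + (2 ^ 2 ^ N + 2 * m) := by ring
  omega

/-- The theorem: exponent `(N - 1) / 2` on the level `N`. -/
theorem main {F : Set (POp Bool)} {N : ℕ} (hN : 3 ≤ N) (hF : Generates F (Lev N)) :
    ∃ K : ℝ, 0 < K ∧ ∀ n : ℕ, 2 ≤ n →
      (d F n : ℝ) ≤ K * Real.logb 2 n ^ (((N : ℝ) - 1) / 2) * 2 ^ (K * √(Real.logb 2 (Real.logb 2 n))) := by
  have hN0 : (3 : ℝ) ≤ N := by exact_mod_cast hN
  refine final (dn := d F) (B := 2 ^ 2 ^ N + 2) (gr_succ (by linarith) (gr_level hN)) (by linarith) ?_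
  rintro n L m hn ⟨m', rfl, h⟩
  exact d_le (by omega) hF hn h

/-- The same with one constant for all families on the level `N`. -/
theorem main' {N : ℕ} (hN : 3 ≤ N) :
    ∃ K : ℝ, 0 < K ∧ ∀ F : Set (POp Bool), Generates F (Lev N) → ∀ n : ℕ, 2 ≤ n →
      (d F n : ℝ) ≤ K * Real.logb 2 n ^ (((N : ℝ) - 1) / 2) * 2 ^ (K * √(Real.logb 2 (Real.logb 2 n))) := by
  classical
  have hN0 : (3 : ℝ) ≤ N := by exact_mod_cast hN
  obtain ⟨mx, hmx⟩ : ∃ mx : ℕ → ℕ, mx = fun n => sInf {x | ∃ L m, n ≤ 2 ^ L ∧ Q N L m ∧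
      x = (2 ^ 2 ^ N + 2) * (m + 1)} := ⟨_, rfl⟩
  obtain ⟨K, hK, h⟩ := final (dn := mx) (B := 2 ^ 2 ^ N + 2) (gr_succ (by linarith) (gr_level hN)) (by linarith) (by
    rintro n L m hn ⟨m', rfl, h⟩
    rw [hmx]
    exact Nat.sInf_le ⟨L, m', hn, h, rfl⟩)
  refine ⟨K, hK, fun F hF n hn => le_trans ?_ (h n hn)⟩
  have hne : {x | ∃ L m, n ≤ 2 ^ L ∧ Q N L m ∧ x = (2 ^ 2 ^ N + 2) * (m + 1)}.Nonempty := by
    obtain ⟨K', _, hK'⟩ := gr_level hN
    obtain ⟨m, _, hm⟩ := hK' n (by omega)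
    exact ⟨_, n, m, Nat.lt_two_pow_self.le, hm, rfl⟩
  obtain ⟨L, m, hL, hm, he⟩ := Nat.sInf_mem hne
  have h1 : d F n ≤ mx n := by
    rw [hmx]
    show d F n ≤ sInf {x | ∃ L m, n ≤ 2 ^ L ∧ Q N L m ∧ x = (2 ^ 2 ^ N + 2) * (m + 1)}
    rw [he]
    exact d_le (by omega) hF hL hm
  exact_mod_cast h1

end H65Q
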