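import Mathlib

/-! # H65Q, file Growth: the recursion over the number of bits (MP_73a90e_al)

`P L m`: `m` words suffice for `L` bits. `Gr e P`: at most `K L ^ e * 2 ^ (K * √(log₂ L))` words suffice, `K` a constant. -/

set_option autoImplicit false

namespace H65Q

open Real

/-- At most `K L ^ e * 2 ^ (K * √(log₂ L))` suffice for `L ≥ 1`, for some constant `K`. -/
def Gr (e : ℝ) (P : ℕ → ℕ → Prop) : Prop :=
  ∃ K : ℝ, 0 ≤ K ∧ ∀ L : ℕ, 1 ≤ L → ∃ m : ℕ, (m : ℝ) ≤ K * (L : ℝ) ^ e * 2 ^ (K * √(logb 2 L)) ∧ P L m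

theorem sqrt_add_le' {x y : ℝ} (hx : 0 ≤ x) (hy : 0 ≤ y) : √(x + y) ≤ √x + √y := by
  rw [Real.sqrt_le_left (by positivity)]
  have h1 := Real.sq_sqrt hx
  have h2 := Real.sq_sqrt hy
  have h3 : 0 ≤ √x * √y := by positivity
  nlinarith

theorem logb_nonneg' {x : ℝ} (hx : 1 ≤ x) : 0 ≤ logb 2 x := Real.logb_nonneg (by norm_num) hx

theorem two_rpow_le {x y : ℝ} (h : x ≤ y) : (2 : ℝ) ^ x ≤ 2 ^ y := Real.rpow_le_rpow_of_exponent_le (by norm_num) h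

/-- `2 ^ (K * √(log₂ x))` is at most a constant times `x ^ δ`. -/
theorem subpoly {K δ : ℝ} (hδ : 0 < δ) : ∃ C : ℝ, 0 < C ∧ ∀ x : ℝ, 1 ≤ x → (2 : ℝ) ^ (K * √(logb 2 x)) ≤ C * x ^ δ := by
  refine ⟨2 ^ (K ^ 2 / (4 * δ)), by positivity, fun x hx => ?_⟩
  have h1 : K * √(logb 2 x) ≤ K ^ 2 / (4 * δ) + logb 2 x * δ := by
    have h2 := Real.sq_sqrt (logb_nonneg' hx)
    obtain ⟨s, hs⟩ : ∃ s, s = √(logb 2 x) := ⟨_, rfl⟩
    rw [← hs] at h2 ⊢
    rw [← h2]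
    have h3 : K ^ 2 / (4 * δ) + s ^ 2 * δ - K * s = (2 * δ * s - K) ^ 2 / (4 * δ) := by
      field_simp
      ring
    have h4 : 0 ≤ (2 * δ * s - K) ^ 2 / (4 * δ) := by positivity
    linarith
  calc (2 : ℝ) ^ (K * √(logb 2 x)) ≤ 2 ^ (K ^ 2 / (4 * δ) + logb 2 x * δ) := two_rpow_le h1
    _ = 2 ^ (K ^ 2 / (4 * δ)) * x ^ δ := by
      rw [Real.rpow_add (by norm_num), Real.rpow_mul (by norm_num), Real.rpow_logb (by norm_num) (by norm_num)
        (by linarith)]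

/-- `2 ^ (K * √(log₂ (x y)))` is submultiplicative. -/
theorem sub_mul {K x y : ℝ} (hK : 0 ≤ K) (hx : 1 ≤ x) (hy : 1 ≤ y) :
    (2 : ℝ) ^ (K * √(logb 2 (x * y))) ≤ 2 ^ (K * √(logb 2 x)) * 2 ^ (K * √(logb 2 y)) := by
  rw [← Real.rpow_add (by norm_num), ← mul_add, Real.logb_mul (by linarith) (by linarith)]
  exact two_rpow_le (mul_le_mul_of_nonneg_left (sqrt_add_le' (logb_nonneg' hx) (logb_nonneg' hy)) hK)

theorem mono_pow {K x y : ℝ} (hK : 0 ≤ K) (hx : 0 < x) (h : x ≤ y) :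
    (2 : ℝ) ^ (K * √(logb 2 x)) ≤ 2 ^ (K * √(logb 2 y)) :=
  two_rpow_le (mul_le_mul_of_nonneg_left (Real.sqrt_le_sqrt (Real.logb_le_logb_of_le (by norm_num) hx h)) hK)

theorem clog_le {q L : ℕ} (hq : 2 ≤ q) (hL : 1 ≤ L) : q ^ Nat.clog q L ≤ q * L := by
  rcases Nat.lt_or_ge 1 L with h | h
  · have h1 := Nat.pow_pred_clog_lt_self (b := q) hq h
    have h2 : 0 < Nat.clog q L := Nat.clog_pos hq h
    calc q ^ Nat.clog q L = q * q ^ (Nat.clog q L).pred := by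
          have h3 : (Nat.clog q L).pred + 1 = Nat.clog q L := Nat.succ_pred_eq_of_pos h2
          rw [← pow_succ', h3]
      _ ≤ q * L := Nat.mul_le_mul_left q h1.le
  · obtain rfl : L = 1 := by omega
    rw [Nat.clog_one_right, pow_zero]
    omega

/-- From the powers of `q` times `β` to all numbers. -/
theorem gr_of_pow {P : ℕ → ℕ → Prop} {β q : ℕ} (hβ : 1 ≤ β) (hq : 2 ≤ q) {e D K : ℝ} (he : 0 ≤ e) (hD : 0 ≤ D)
    (hK : 0 ≤ K) (hmono : ∀ L L' m, L' ≤ L → P L m → P L' m)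
    (h : ∀ j, ∃ m : ℕ, (m : ℝ) ≤ D * ((q : ℝ) ^ j) ^ e * 2 ^ (K * √(logb 2 (β * (q : ℝ) ^ j))) ∧ P (β * q ^ j) m) :
    Gr e P := by
  have hq1 : (1 : ℝ) ≤ q := by exact_mod_cast (by omega : 1 ≤ q)
  have hβ1 : (1 : ℝ) ≤ β := by exact_mod_cast hβ
  obtain ⟨A, hA⟩ : ∃ A : ℝ, A = D * (q : ℝ) ^ e * 2 ^ (K * √(logb 2 (β * q))) := ⟨_, rfl⟩
  have hA0 : 0 ≤ A := by
    rw [hA]
    positivity
  refine ⟨max A K, le_max_of_le_left hA0, fun L hL => ?_⟩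
  have hL1 : (1 : ℝ) ≤ L := by exact_mod_cast hL
  obtain ⟨m, hm, hP⟩ := h (Nat.clog q L)
  refine ⟨m, hm.trans ?_, hmono _ _ m ?_ hP⟩
  · have h1 : ((q : ℝ) ^ Nat.clog q L) ≤ q * L := by exact_mod_cast clog_le hq hL
    have h2 : (1 : ℝ) ≤ (q : ℝ) ^ Nat.clog q L := one_le_pow₀ hq1
    have h3 : ((q : ℝ) ^ Nat.clog q L) ^ e ≤ (q : ℝ) ^ e * (L : ℝ) ^ e := by
      rw [← Real.mul_rpow (by linarith) (by linarith)]
      exact Real.rpow_le_rpow (by positivity) h1 he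
    have h4 : (2 : ℝ) ^ (K * √(logb 2 (β * (q : ℝ) ^ Nat.clog q L))) ≤
        2 ^ (K * √(logb 2 (β * q))) * 2 ^ (K * √(logb 2 L)) := by
      refine (mono_pow hK (by positivity) (mul_le_mul_of_nonneg_left h1 (by linarith))).trans ?_
      rw [← mul_assoc]
      exact sub_mul hK (one_le_mul_of_one_le_of_one_le hβ1 hq1) hL1
    have h5 : (2 : ℝ) ^ (K * √(logb 2 L)) ≤ 2 ^ (max A K * √(logb 2 L)) :=
      two_rpow_le (mul_le_mul_of_nonneg_right (le_max_right _ _) (Real.sqrt_nonneg _))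
    calc D * ((q : ℝ) ^ Nat.clog q L) ^ e * 2 ^ (K * √(logb 2 (β * (q : ℝ) ^ Nat.clog q L)))
        ≤ D * ((q : ℝ) ^ e * (L : ℝ) ^ e) * (2 ^ (K * √(logb 2 (β * q))) * 2 ^ (K * √(logb 2 L))) := by gcongr
      _ = A * (L : ℝ) ^ e * 2 ^ (K * √(logb 2 L)) := by
        rw [hA]
        ring
      _ ≤ max A K * (L : ℝ) ^ e * 2 ^ (max A K * √(logb 2 L)) := by
        have : A ≤ max A K := le_max_left _ _
        gcongr
  · calc L ≤ q ^ Nat.clog q L := Nat.le_pow_clog hq L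
      _ = 1 * q ^ Nat.clog q L := (one_mul _).symm
      _ ≤ β * q ^ Nat.clog q L := Nat.mul_le_mul_right _ hβ

/-- The recursion in the number of bits. -/
theorem step {P' P Cr : ℕ → ℕ → Prop} {β : ℕ} {W : ℕ → ℕ} {e' e : ℝ} (hβ : 1 ≤ β) (he' : 0 ≤ e') (hee : e' < e)
    (hP' : Gr e' P') (hC : Gr e Cr) (hmono : ∀ L L' m, L' ≤ L → P L m → P L' m) (h1 : ∃ m, P β m)
    (hrec : ∀ q l a m c, 1 ≤ q → 1 ≤ l → P' (β * q) a → P (β * l) m → Cr (β * q * l) c →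
      P (β * q * l) (a * m + W q * c)) : Gr e P := by
  obtain ⟨K', hK'0, hK'⟩ := hP'
  obtain ⟨K, hK0, hK⟩ := hC
  have he : 0 ≤ e := he'.trans hee.le
  have hβ1 : (1 : ℝ) ≤ β := by exact_mod_cast hβ
  obtain ⟨q, hq2, a, ha, haP⟩ : ∃ q : ℕ, 2 ≤ q ∧ ∃ a : ℕ, 2 * (a : ℝ) ≤ (q : ℝ) ^ e ∧ P' (β * q) a := by
    obtain ⟨δ, hδ⟩ : ∃ δ : ℝ, δ = (e - e') / 2 := ⟨_, rfl⟩
    have hδ0 : 0 < δ := by
      rw [hδ]
      linarith
    obtain ⟨C, hC0, hC⟩ := subpoly (K := K') hδ0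
    have h2 : Filter.Tendsto (fun q : ℕ => (q : ℝ) ^ δ) Filter.atTop Filter.atTop :=
      (tendsto_rpow_atTop hδ0).comp tendsto_natCast_atTop_atTop
    obtain ⟨q, hq, hq2⟩ := ((h2.eventually_ge_atTop (2 * (K' * C * (β : ℝ) ^ (e' + δ)))).and
      (Filter.eventually_ge_atTop 2)).exists
    have hq1 : (1 : ℝ) ≤ q := by exact_mod_cast (by omega : 1 ≤ q)
    obtain ⟨a, ha, haP⟩ := hK' (β * q) (Nat.mul_pos hβ (by omega))
    refine ⟨q, hq2, a, ?_, haP⟩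
    push_cast at ha
    have hβq : (1 : ℝ) ≤ β * q := one_le_mul_of_one_le_of_one_le hβ1 hq1
    have h3 := hC _ hβq
    calc 2 * (a : ℝ) ≤ 2 * (K' * ((β : ℝ) * q) ^ e' * (C * ((β : ℝ) * q) ^ δ)) := by
          have := mul_le_mul_of_nonneg_left h3 (show 0 ≤ K' * ((β : ℝ) * q) ^ e' by positivity)
          linarith
      _ = 2 * (K' * C * (β : ℝ) ^ (e' + δ)) * (q : ℝ) ^ (e' + δ) := by
        rw [Real.rpow_add (by positivity : (0 : ℝ) < β), Real.rpow_add (by positivity : (0 : ℝ) < q),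
          Real.mul_rpow (by positivity) (by positivity), Real.mul_rpow (by positivity) (by positivity)]
        ring
      _ ≤ (q : ℝ) ^ δ * (q : ℝ) ^ (e' + δ) := mul_le_mul_of_nonneg_right hq (by positivity)
      _ = (q : ℝ) ^ e := by
        rw [← Real.rpow_add (by positivity)]
        congr 1
        rw [hδ]
        ring
  have hq1 : (1 : ℝ) ≤ q := by exact_mod_cast (by omega : 1 ≤ q)
  choose c hc hcP using fun j : ℕ => hK (β * q * q ^ j) (Nat.mul_pos (Nat.mul_pos hβ (by omega)) (Nat.pow_pos (by omega)))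
  obtain ⟨m0, hm0⟩ := h1
  obtain ⟨m, hmz, hms⟩ : ∃ m : ℕ → ℕ, m 0 = m0 ∧ ∀ j, m (j + 1) = a * m j + W q * c j :=
    ⟨fun j => Nat.rec m0 (fun j x => a * x + W q * c j) j, rfl, fun _ => rfl⟩
  obtain ⟨D, hD⟩ : ∃ D : ℝ, D = m0 + 2 * (W q * (K * (β : ℝ) ^ e)) := ⟨_, rfl⟩
  have hWK : 0 ≤ (W q : ℝ) * (K * (β : ℝ) ^ e) := by positivity
  have hD0 : 0 ≤ D := by
    rw [hD]
    positivity
  refine gr_of_pow hβ hq2 he hD0 hK0 hmono fun j => ⟨m j, ?_, ?_⟩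
  · induction j with
    | zero =>
      rw [hmz, pow_zero, Real.one_rpow, mul_one, mul_one]
      have h2 : (1 : ℝ) ≤ 2 ^ (K * √(logb 2 (β : ℝ))) := Real.one_le_rpow (by norm_num) (by positivity)
      calc (m0 : ℝ) ≤ D := by
            rw [hD]
            linarith
        _ = D * 1 := (mul_one D).symm
        _ ≤ D * 2 ^ (K * √(logb 2 (β : ℝ))) := mul_le_mul_of_nonneg_left h2 hD0
    | succ j ih =>
      have hcj := hc j
      push_cast at hcj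
      obtain ⟨G, hG⟩ : ∃ G : ℝ, G = 2 ^ (K * √(logb 2 (β * (q : ℝ) ^ (j + 1)))) := ⟨_, rfl⟩
      have hG0 : 0 ≤ G := by
        rw [hG]
        positivity
      have e1 : (β : ℝ) * q * q ^ j = β * q ^ (j + 1) := by ring
      have e2 : ((q : ℝ) ^ (j + 1)) ^ e = (q : ℝ) ^ e * ((q : ℝ) ^ j) ^ e := by
        rw [pow_succ', Real.mul_rpow (by positivity) (by positivity)]
      have h2 : (c j : ℝ) ≤ K * (β : ℝ) ^ e * ((q : ℝ) ^ e * ((q : ℝ) ^ j) ^ e) * G := by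
        rw [e1, Real.mul_rpow (by positivity) (by positivity), e2, ← hG] at hcj
        calc (c j : ℝ) ≤ K * ((β : ℝ) ^ e * ((q : ℝ) ^ e * ((q : ℝ) ^ j) ^ e)) * G := hcj
          _ = K * (β : ℝ) ^ e * ((q : ℝ) ^ e * ((q : ℝ) ^ j) ^ e) * G := by ring
      have h3 : (m j : ℝ) ≤ D * ((q : ℝ) ^ j) ^ e * G := by
        refine ih.trans (mul_le_mul_of_nonneg_left ?_ (by positivity))
        rw [hG]
        refine mono_pow hK0 (by positivity) (mul_le_mul_of_nonneg_left ?_ (by positivity))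
        exact pow_le_pow_right₀ hq1 (Nat.le_succ j)
      rw [hms, ← hG, e2]
      push_cast
      obtain ⟨Y, hY⟩ : ∃ Y : ℝ, Y = ((q : ℝ) ^ j) ^ e := ⟨_, rfl⟩
      obtain ⟨X, hX⟩ : ∃ X : ℝ, X = (q : ℝ) ^ e := ⟨_, rfl⟩
      have hY0 : 0 ≤ Y := by
        rw [hY]
        positivity
      rw [← hY] at h2 h3 ⊢
      rw [← hX] at h2 ha ⊢
      have h4 : (a : ℝ) * m j ≤ (X / 2) * (D * Y * G) :=
        mul_le_mul (by linarith) h3 (Nat.cast_nonneg _) (by linarith [Nat.cast_nonneg (α := ℝ) a])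
      have h5 : (W q : ℝ) * c j ≤ W q * (K * (β : ℝ) ^ e * (X * Y) * G) :=
        mul_le_mul_of_nonneg_left h2 (Nat.cast_nonneg _)
      have h6 : 0 ≤ X * Y * G := by
        have : 0 ≤ X := by linarith [Nat.cast_nonneg (α := ℝ) a]
        positivity
      have h7 : W q * (K * (β : ℝ) ^ e) ≤ D / 2 := by
        rw [hD]
        linarith [Nat.cast_nonneg (α := ℝ) m0]
      calc (a : ℝ) * m j + W q * c j ≤ (X / 2) * (D * Y * G) + W q * (K * (β : ℝ) ^ e * (X * Y) * G) := add_le_add h4 h5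
        _ = (D / 2 + W q * (K * (β : ℝ) ^ e)) * (X * Y * G) := by ring
        _ ≤ (D / 2 + D / 2) * (X * Y * G) := mul_le_mul_of_nonneg_right (by linarith) h6
        _ = D * (X * Y) * G := by ring
  · induction j with
    | zero =>
      rw [hmz, pow_zero, mul_one]
      exact hm0
    | succ j ih =>
      rw [hms, show β * q ^ (j + 1) = β * q * q ^ j by ring]
      exact hrec q (q ^ j) a (m j) (c j) (by omega) (Nat.pow_pos (by omega)) haP ih (hcP j)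

/-- From the powers of `B` to all numbers, with the exponent `√ i` for `B ^ i`. -/
theorem of_pow {P : ℕ → ℕ → Prop} {B : ℕ} (hB : 2 ≤ B) {e A : ℝ} (he : 0 ≤ e) (hA : 0 ≤ A)
    (hmono : ∀ L L' m, L' ≤ L → P L m → P L' m)
    (h : ∀ i : ℕ, ∃ m : ℕ, (m : ℝ) ≤ A * ((B : ℝ) ^ i) ^ e * 2 ^ (A * √(i : ℝ)) ∧ P (B ^ i) m) : Gr e P := by
  have hB1 : (1 : ℝ) ≤ B := by exact_mod_cast (by omega : 1 ≤ B)
  refine gr_of_pow (β := 1) (q := B) le_rfl hB (D := A) (K := A) he hA hA hmono fun i => ?_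
  obtain ⟨m, hm, hP⟩ := h i
  refine ⟨m, hm.trans ?_, by rw [one_mul]; exact hP⟩
  refine mul_le_mul_of_nonneg_left (two_rpow_le (mul_le_mul_of_nonneg_left (Real.sqrt_le_sqrt ?_) hA)) (by positivity)
  rw [Nat.cast_one, one_mul, Real.logb_pow]
  have h1 : (1 : ℝ) ≤ logb 2 (B : ℝ) := by
    rw [Real.le_logb_iff_rpow_le (by norm_num) (by linarith), Real.rpow_one]
    exact_mod_cast hB
  calc (i : ℝ) = i * 1 := (mul_one _).symm
    _ ≤ i * logb 2 (B : ℝ) := mul_le_mul_of_nonneg_left h1 (Nat.cast_nonneg _)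

/-- From bits to the number of coordinates. -/
theorem final {P : ℕ → ℕ → Prop} {dn : ℕ → ℕ} {B : ℕ} {e : ℝ} (h : Gr e P) (he : 0 ≤ e)
    (hd : ∀ n L m, n ≤ 2 ^ L → P L m → dn n ≤ B * m) :
    ∃ K : ℝ, 0 < K ∧ ∀ n : ℕ, 2 ≤ n → (dn n : ℝ) ≤ K * logb 2 n ^ e * 2 ^ (K * √(logb 2 (logb 2 n))) := by
  obtain ⟨K, hK0, hK⟩ := h
  obtain ⟨A, hA⟩ : ∃ A : ℝ, A = B * K * 2 ^ e * 2 ^ K := ⟨_, rfl⟩
  have hA0 : 0 ≤ A := by
    rw [hA]
    positivity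
  refine ⟨max A K + 1, by positivity, fun n hn => ?_⟩
  have hn0 : (2 : ℝ) ≤ n := by exact_mod_cast hn
  have hl1 : 1 ≤ logb 2 (n : ℝ) := by
    rw [Real.le_logb_iff_rpow_le (by norm_num) (by linarith), Real.rpow_one]
    exact hn0
  obtain ⟨m, hm, hP⟩ := hK (Nat.clog 2 n) (Nat.clog_pos (by norm_num) (by omega))
  have h1 := hd n (Nat.clog 2 n) m (Nat.le_pow_clog (by norm_num) n) hP
  have hL : ((Nat.clog 2 n : ℕ) : ℝ) ≤ 2 * logb 2 n := by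
    have h2 : 2 ^ Nat.clog 2 n ≤ 2 * n := clog_le (by norm_num) (by omega)
    have h3 : ((Nat.clog 2 n : ℕ) : ℝ) ≤ 1 + logb 2 n := by
      have h4 : logb 2 ((2 : ℝ) ^ Nat.clog 2 n) ≤ logb 2 (2 * n) :=
        Real.logb_le_logb_of_le (by norm_num) (by positivity) (by exact_mod_cast h2)
      rw [Real.logb_pow, Real.logb_self_eq_one (by norm_num), mul_one,
        Real.logb_mul (by norm_num) (by linarith), Real.logb_self_eq_one (by norm_num)] at h4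
      exact h4
    linarith
  have hL0 : (0 : ℝ) < ((Nat.clog 2 n : ℕ) : ℝ) := by
    exact_mod_cast Nat.clog_pos (by norm_num) (by omega)
  obtain ⟨l, hl⟩ : ∃ l : ℝ, l = logb 2 (n : ℝ) := ⟨_, rfl⟩
  rw [← hl] at hl1 hL ⊢
  have h5 : ((Nat.clog 2 n : ℕ) : ℝ) ^ e ≤ 2 ^ e * l ^ e := by
    rw [← Real.mul_rpow (by norm_num) (by linarith)]
    exact Real.rpow_le_rpow hL0.le hL he
  have h6 : (2 : ℝ) ^ (K * √(logb 2 ((Nat.clog 2 n : ℕ) : ℝ))) ≤ 2 ^ K * 2 ^ (K * √(logb 2 l)) := by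
    refine (mono_pow hK0 hL0 hL).trans ((sub_mul hK0 (by norm_num) hl1).trans (le_of_eq ?_))
    rw [Real.logb_self_eq_one (by norm_num), Real.sqrt_one, mul_one]
  have hll : 0 ≤ √(logb 2 l) := Real.sqrt_nonneg _
  calc (dn n : ℝ) ≤ B * m := by exact_mod_cast h1
    _ ≤ B * (K * ((Nat.clog 2 n : ℕ) : ℝ) ^ e * 2 ^ (K * √(logb 2 ((Nat.clog 2 n : ℕ) : ℝ)))) :=
      mul_le_mul_of_nonneg_left hm (Nat.cast_nonneg _)
    _ ≤ B * (K * (2 ^ e * l ^ e) * (2 ^ K * 2 ^ (K * √(logb 2 l)))) := by gcongr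
    _ = A * l ^ e * 2 ^ (K * √(logb 2 l)) := by
      rw [hA]
      ring
    _ ≤ (max A K + 1) * l ^ e * 2 ^ ((max A K + 1) * √(logb 2 l)) := by
      have h7 : A ≤ max A K + 1 := (le_max_left _ _).trans (by linarith)
      have h8 : K ≤ max A K + 1 := (le_max_right _ _).trans (by linarith)
      have h9 : (2 : ℝ) ^ (K * √(logb 2 l)) ≤ 2 ^ ((max A K + 1) * √(logb 2 l)) :=
        two_rpow_le (mul_le_mul_of_nonneg_right h8 hll)
      gcongr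

end H65Q
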